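import Pool.Agent.C4N.Stm2

set_option autoImplicit false

/-!
# SEQ: relocations of the defects, one after the other
-/

open scoped Classical

noncomputable section

namespace Pool.Agent.C4N.H76

open Finset Pool.Agent.C4N

section graphs

variable {V : Type}

/-- the vertices `x, z` are the ends of the edge `a b` -/
def Ed (a b x z : V) : Prop := (x = a ∧ z = b) ∨ (x = b ∧ z = a)

lemma sup_edge_adj (G : SimpleGraph V) {a b : V} (hab : a ≠ b) (x z : V) :
    (G ⊔ SimpleGraph.edge a b).Adj x z ↔ G.Adj x z ∨ Ed a b x z := by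
  rw [SimpleGraph.sup_adj, SimpleGraph.edge_adj]
  unfold Ed
  constructor
  · rintro (h | ⟨h, _⟩)
    · exact Or.inl h
    · exact Or.inr h
  · rintro (h | h)
    · exact Or.inl h
    · refine Or.inr ⟨h, ?_⟩
      rcases h with ⟨rfl, rfl⟩ | ⟨rfl, rfl⟩
      · exact hab
      · exact hab.symm

lemma sdiff_edge_adj (G : SimpleGraph V) {a b : V} (x z : V) :
    (G \ SimpleGraph.edge a b).Adj x z ↔ G.Adj x z ∧ ¬ Ed a b x z := by
  rw [SimpleGraph.sdiff_adj, SimpleGraph.edge_adj]
  unfold Ed
  constructor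
  · rintro ⟨h, h2⟩
    exact ⟨h, fun h3 => h2 ⟨h3, h.ne⟩⟩
  · rintro ⟨h, h2⟩
    exact ⟨h, fun h3 => h2 h3.1⟩

lemma dg_sup [Fintype V] (G : SimpleGraph V) {a b : V} (hab : a ≠ b) (h : ¬ G.Adj a b) (x : V) :
    dg (G ⊔ SimpleGraph.edge a b) x = dg G x + ((if x = a then 1 else 0) + if x = b then 1 else 0) := by
  unfold dg
  by_cases hxa : x = a
  · subst hxa
    have h1 : (G ⊔ SimpleGraph.edge x b).neighborSet x = insert b (G.neighborSet x) := by
      ext z
      rw [SimpleGraph.mem_neighborSet, sup_edge_adj G hab, Set.mem_insert_iff,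
        SimpleGraph.mem_neighborSet]
      unfold Ed
      constructor
      · rintro (h | ⟨_, h⟩ | ⟨h, _⟩)
        · exact Or.inr h
        · exact Or.inl h
        · exact absurd h hab
      · rintro (h | h)
        · exact Or.inr (Or.inl ⟨rfl, h⟩)
        · exact Or.inl h
    rw [h1, Set.ncard_insert_of_notMem (by rwa [SimpleGraph.mem_neighborSet]) (Set.toFinite _),
      if_pos rfl, if_neg hab]
  · by_cases hxb : x = b
    · subst hxb
      have h1 : (G ⊔ SimpleGraph.edge a x).neighborSet x = insert a (G.neighborSet x) := by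
        ext z
        rw [SimpleGraph.mem_neighborSet, sup_edge_adj G hab, Set.mem_insert_iff,
          SimpleGraph.mem_neighborSet]
        unfold Ed
        constructor
        · rintro (h | ⟨h, _⟩ | ⟨_, h⟩)
          · exact Or.inr h
          · exact absurd h hxa
          · exact Or.inl h
        · rintro (h | h)
          · exact Or.inr (Or.inr ⟨rfl, h⟩)
          · exact Or.inl h
      rw [h1, Set.ncard_insert_of_notMem (by
        rw [SimpleGraph.mem_neighborSet]
        exact fun h' => h h'.symm) (Set.toFinite _), if_pos rfl, if_neg hxa]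
    · have h1 : (G ⊔ SimpleGraph.edge a b).neighborSet x = G.neighborSet x := by
        ext z
        rw [SimpleGraph.mem_neighborSet, sup_edge_adj G hab, SimpleGraph.mem_neighborSet]
        unfold Ed
        constructor
        · rintro (h | ⟨h, _⟩ | ⟨h, _⟩)
          · exact h
          · exact absurd h hxa
          · exact absurd h hxb
        · exact Or.inl
      rw [h1, if_neg hxa, if_neg hxb]
      rfl

lemma dg_sdiff [Fintype V] (G : SimpleGraph V) {a b : V} (h : G.Adj a b) (x : V) :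
    dg (G \ SimpleGraph.edge a b) x + ((if x = a then 1 else 0) + if x = b then 1 else 0) =
      dg G x := by
  have hab := h.ne
  have h1 : ¬ (G \ SimpleGraph.edge a b).Adj a b := by
    rw [sdiff_edge_adj]
    intro h2
    exact h2.2 (Or.inl ⟨rfl, rfl⟩)
  have h2 : (G \ SimpleGraph.edge a b) ⊔ SimpleGraph.edge a b = G := by
    ext x z
    rw [sup_edge_adj _ hab, sdiff_edge_adj]
    constructor
    · rintro (h3 | h3)
      · exact h3.1
      · rcases h3 with ⟨rfl, rfl⟩ | ⟨rfl, rfl⟩
        · exact h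
        · exact h.symm
    · intro h3
      by_cases h4 : Ed a b x z
      · exact Or.inr h4
      · exact Or.inl ⟨h3, h4⟩
  rw [← dg_sup _ hab h1 x, h2]

end graphs

section step

variable {V I : Type}

/-- the class after the step -/
def newF (F : SimpleGraph V) (p y u : V) : SimpleGraph V :=
  (F ⊔ SimpleGraph.edge p y) \ SimpleGraph.edge y u

/-- the rest after the step -/
def newR (R : SimpleGraph V) (p y u : V) : SimpleGraph V :=
  (R \ SimpleGraph.edge p y) ⊔ SimpleGraph.edge y u

lemma newF_adj (F : SimpleGraph V) {p y : V} (u : V) (hpy : p ≠ y) (x z : V) :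
    (newF F p y u).Adj x z ↔ (F.Adj x z ∨ Ed p y x z) ∧ ¬ Ed y u x z := by
  unfold newF
  rw [sdiff_edge_adj, sup_edge_adj _ hpy]

lemma newR_adj (R : SimpleGraph V) (p : V) {y u : V} (hyu : y ≠ u) (x z : V) :
    (newR R p y u).Adj x z ↔ (R.Adj x z ∧ ¬ Ed p y x z) ∨ Ed y u x z := by
  unfold newR
  rw [sup_edge_adj _ hyu, sdiff_edge_adj]

lemma Ed_adj {G : SimpleGraph V} {a b x z : V} (h : Ed a b x z) : G.Adj x z ↔ G.Adj a b := by
  rcases h with ⟨rfl, rfl⟩ | ⟨rfl, rfl⟩
  · rfl
  · exact G.adj_comm _ _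

lemma Ed_cross {p y u x z : V} (hpu : p ≠ u) (hpy : p ≠ y) (h : Ed p y x z) : ¬ Ed y u x z := by
  rintro (⟨h1, h2⟩ | ⟨h1, h2⟩)
  · rcases h with ⟨h3, h4⟩ | ⟨h3, h4⟩
    · exact hpy (h3.symm.trans h1)
    · exact hpu (h4.symm.trans h2)
  · rcases h with ⟨h3, h4⟩ | ⟨h3, h4⟩
    · exact hpu (h3.symm.trans h1)
    · exact hpy (h4.symm.trans h2)

lemma disj_iff {G H : SimpleGraph V} : Disjoint G H ↔ ∀ x z, G.Adj x z → ¬ H.Adj x z := by
  rw [disjoint_iff]
  constructor
  · intro h x z h1 h2
    have h3 : (G ⊓ H).Adj x z := ⟨h1, h2⟩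
    rw [h] at h3
    exact h3
  · intro h
    ext x z
    constructor
    · intro h1
      exact absurd h1.2 (h x z h1.1)
    · intro h1
      exact absurd h1 (by simp)

lemma dec_step {R Rr : SimpleGraph V} {F : I → SimpleGraph V} (hD : Dec R Rr F) {i : I}
    {p y u : V} (hpy : Rr.Adj p y) (hyu : (F i).Adj y u) (hlf : LF (newF (F i) p y u)) :
    Dec R (newR Rr p y u) (Function.update F i (newF (F i) p y u)) := by
  have hd1 : ∀ i x z, Rr.Adj x z → ¬ (F i).Adj x z := fun i => disj_iff.1 (hD.d1 i)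
  have hd2 : ∀ i i', i ≠ i' → ∀ x z, (F i).Adj x z → ¬ (F i').Adj x z := fun i i' h =>
    disj_iff.1 (hD.d2 i i' h)
  have hpu : p ≠ u := by
    intro h
    rw [← h] at hyu
    exact hd1 i _ _ hpy.symm hyu
  have key : ∀ i' x z, (Function.update F i (newF (F i) p y u) i').Adj x z ↔
      if i' = i then ((F i).Adj x z ∨ Ed p y x z) ∧ ¬ Ed y u x z else (F i').Adj x z := by
    intro i' x z
    by_cases h : i' = i
    · subst h
      rw [Function.update_self, if_pos rfl, newF_adj _ _ hpy.ne]
    · rw [Function.update_of_ne h, if_neg h]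
  refine ⟨?_, ?_, ?_, ?_⟩
  · intro i'
    by_cases h : i' = i
    · subst h
      rw [Function.update_self]
      exact hlf
    · rw [Function.update_of_ne h]
      exact hD.lf i'
  · rw [← hD.un]
    ext x z
    rw [SimpleGraph.sup_adj, SimpleGraph.sup_adj, SimpleGraph.iSup_adj, SimpleGraph.iSup_adj,
      newR_adj _ _ hyu.ne]
    constructor
    · rintro ((h | h) | ⟨i', h⟩)
      · exact Or.inl h.1
      · exact Or.inr ⟨i, (Ed_adj h).2 hyu⟩
      · rw [key] at h
        by_cases hi : i' = i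
        · rw [if_pos hi] at h
          rcases h.1 with h1 | h1
          · exact Or.inr ⟨i, h1⟩
          · exact Or.inl ((Ed_adj h1).2 hpy)
        · rw [if_neg hi] at h
          exact Or.inr ⟨i', h⟩
    · rintro (h | ⟨i', h⟩)
      · by_cases h1 : Ed p y x z
        · refine Or.inr ⟨i, ?_⟩
          rw [key, if_pos rfl]
          exact ⟨Or.inr h1, Ed_cross hpu hpy.ne h1⟩
        · exact Or.inl (Or.inl ⟨h, h1⟩)
      · by_cases hi : i' = i
        · subst hi
          by_cases h1 : Ed y u x z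
          · exact Or.inl (Or.inr h1)
          · refine Or.inr ⟨i', ?_⟩
            rw [key, if_pos rfl]
            exact ⟨Or.inl h, h1⟩
        · refine Or.inr ⟨i', ?_⟩
          rw [key, if_neg hi]
          exact h
  · intro i'
    rw [disj_iff]
    intro x z h1 h2
    rw [newR_adj _ _ hyu.ne] at h1
    rw [key] at h2
    by_cases hi : i' = i
    · rw [if_pos hi] at h2
      rcases h1 with h1 | h1
      · rcases h2.1 with h3 | h3
        · exact hd1 i _ _ h1.1 h3
        · exact h1.2 h3
      · exact h2.2 h1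
    · rw [if_neg hi] at h2
      rcases h1 with h1 | h1
      · exact hd1 i' _ _ h1.1 h2
      · exact hd2 i i' (Ne.symm hi) _ _ ((Ed_adj h1).2 hyu) h2
  · have h3 : ∀ i', i' ≠ i → ∀ x z, (newF (F i) p y u).Adj x z → ¬ (F i').Adj x z := by
      intro i' hi x z h1 h2
      rw [newF_adj _ _ hpy.ne] at h1
      rcases h1.1 with h4 | h4
      · exact hd2 i i' (Ne.symm hi) _ _ h4 h2
      · exact hd1 i' _ _ ((Ed_adj h4).2 hpy) h2
    intro i' i'' hne
    rw [disj_iff]
    by_cases h1 : i' = i
    · subst h1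
      rw [Function.update_self, Function.update_of_ne (Ne.symm hne)]
      exact h3 i'' (Ne.symm hne)
    · by_cases h2 : i'' = i
      · subst h2
        rw [Function.update_self, Function.update_of_ne hne]
        intro x z h4 h5
        exact h3 i' hne x z h5 h4
      · rw [Function.update_of_ne h1, Function.update_of_ne h2]
        exact hd2 i' i'' hne

lemma dg_newF [Fintype V] {F : SimpleGraph V} {p y u : V} (hpy : p ≠ y) (hpyF : ¬ F.Adj p y)
    (hyu : F.Adj y u) (x : V) :
    dg (newF F p y u) x + (if x = u then 1 else 0) = dg F x + if x = p then 1 else 0 := by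
  unfold newF
  have h1 : (F ⊔ SimpleGraph.edge p y).Adj y u := Or.inl hyu
  have h2 := dg_sdiff _ h1 x
  have h3 := dg_sup F hpy hpyF x
  omega

lemma dg_newR [Fintype V] {R : SimpleGraph V} {p y u : V} (hyu : y ≠ u) (hyuR : ¬ R.Adj y u)
    (hpy : R.Adj p y) (x : V) :
    dg (newR R p y u) x + (if x = p then 1 else 0) = dg R x + if x = u then 1 else 0 := by
  unfold newR
  have h1 : ¬ (R \ SimpleGraph.edge p y).Adj y u := fun h => hyuR h.1
  have h2 := dg_sdiff _ hpy x
  have h3 := dg_sup _ hyu h1 x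
  omega

end step

lemma sum_change {Δ : Type} [Fintype Δ] (f g : Δ → ℕ) (d : Δ) (h : ∀ d', d' ≠ d → f d' = g d') :
    ∑ d', f d' + g d = ∑ d', g d' + f d := by
  rw [← Finset.add_sum_erase univ f (mem_univ d), ← Finset.add_sum_erase univ g (mem_univ d)]
  have h1 : ∑ x ∈ univ.erase d, f x = ∑ x ∈ univ.erase d, g x :=
    Finset.sum_congr rfl fun x hx => h x (Finset.ne_of_mem_erase hx)
  rw [h1]
  ring

section chn

variable {V I Δ : Type} {t l : ℕ}

lemma ps_congr (C : Chn V I Δ t l) (ω : Δ → Fin l → Fin t) (d : Δ) {σ σ' : ℕ → Bool} {j : ℕ}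
    (h : ∀ i, i < j → σ i = σ' i) : C.ps ω d σ j = C.ps ω d σ' j := by
  induction j with
  | zero => rfl
  | succ j ih =>
    rw [Chn.ps, Chn.ps, ih (fun i hi => h i (by omega)), h j (by omega)]

lemma yy_congr (C : Chn V I Δ t l) (ω : Δ → Fin l → Fin t) (d : Δ) {σ σ' : ℕ → Bool} {j : ℕ}
    (h : ∀ i, i < j → σ i = σ' i) : C.yy ω d σ j = C.yy ω d σ' j := by
  unfold Chn.yy
  rw [ps_congr C ω d h]

/-- the vertex `v` was not touched -/
def Unt (C : Chn V I Δ t l) (ω : Δ → Fin l → Fin t) (σ : Δ → ℕ → Bool) (j : Δ → ℕ) (v : V) :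
    Prop :=
  ∀ d, v ≠ C.st d ∧ ∀ j', j' < j d → v ≠ C.yy ω d (σ d) j' ∧ v ≠ C.ps ω d (σ d) (j' + 1)

/-- the states -/
structure Stt [Fintype V] [Fintype Δ] (C : Chn V I Δ t l) (ω : Δ → Fin l → Fin t)
    (T R R0 : SimpleGraph V) (F0 : I → SimpleGraph V) (F : I → SimpleGraph V)
    (Rr : SimpleGraph V) (σ : Δ → ℕ → Bool) (j : Δ → ℕ) : Prop where
  dec : Dec R Rr F
  le : Rr ≤ T
  jl : ∀ d, j d ≤ l
  al : ∀ d j', 1 ≤ j' → j' < j d → C.ps ω d (σ d) j' ∈ C.X
  dF : ∀ i x, dg (F i) x +
      (univ.filter fun d => C.cl d = i ∧ C.ps ω d (σ d) (j d) = x).card =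
    dg (F0 i) x + (univ.filter fun d => C.cl d = i ∧ C.st d = x).card
  dR : ∀ x, dg Rr x + (univ.filter fun d => C.st d = x).card =
    dg R0 x + (univ.filter fun d => C.ps ω d (σ d) (j d) = x).card
  un : ∀ v, Unt C ω σ j v → (∀ z, Rr.Adj v z ↔ R0.Adj v z) ∧
    ∀ i z, (F i).Adj v z ↔ (F0 i).Adj v z

/-- one step -/
lemma step [Fintype V] [Fintype Δ] (hFIL : FILStmt) {ρ : ℕ} {C : Chn V I Δ t l}
    {ω : Δ → Fin l → Fin t} {N T R R0 : SimpleGraph V} {F0 : I → SimpleGraph V} {D2 : Set V}
    (hG : C.Good N ρ D2 ω) (hD : Dec R R0 F0)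
    (h2 : ∀ i x, dg (F0 i) x + (univ.filter fun d => C.cl d = i ∧ C.st d = x).card ≤ 2)
    (hcR : ∀ i p a, R0.Adj p (C.cand i p a)) (hcst : ∀ i p a d, C.cand i p a ≠ C.st d)
    (hP : ∀ i p a, C.P true i (C.cand i p a) ≠ C.P false i (C.cand i p a))
    (hPF : ∀ b i p a, (F0 i).Adj (C.cand i p a) (C.P b i (C.cand i p a)) ∧
      T.Adj (C.cand i p a) (C.P b i (C.cand i p a)))
    {F : I → SimpleGraph V} {Rr : SimpleGraph V} {σ : Δ → ℕ → Bool} {j : Δ → ℕ}
    (hS : Stt C ω T R R0 F0 F Rr σ j) (d : Δ) (hjd : j d < l)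
    (hal : C.al ω d (σ d) (j d)) :
    ∃ (F' : I → SimpleGraph V) (Rr' : SimpleGraph V) (σ' : Δ → ℕ → Bool),
      Stt C ω T R R0 F0 F' Rr' σ' (Function.update j d (j d + 1)) := by
  obtain ⟨n, hn⟩ : ∃ n, n = j d := ⟨_, rfl⟩
  obtain ⟨i, hi⟩ : ∃ i, i = C.cl d := ⟨_, rfl⟩
  obtain ⟨p, hp⟩ : ∃ p, p = C.ps ω d (σ d) n := ⟨_, rfl⟩
  obtain ⟨y, hy⟩ : ∃ y, y = C.yy ω d (σ d) n := ⟨_, rfl⟩
  rw [← hn] at hjd hal
  have hyc : y = C.cand i p (ω d ⟨n, hjd⟩) := by
    rw [hy, hi, hp]
    unfold Chn.yy Chn.yp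
    rw [dif_pos hjd]
  have hal' : ∀ d' j', j' < j d' → C.al ω d' (σ d') j' := by
    intro d' j' h j'' h1 h3
    exact hS.al d' j'' h1 (by omega)
  have hyU : Unt C ω σ j y := by
    intro d'
    refine ⟨by rw [hyc]; exact hcst _ _ _ _, ?_⟩
    intro j' hj'
    by_cases hdd : d' = d
    · subst hdd
      rw [← hn] at hj'
      rw [hy]
      exact ⟨(hG.sf d' (σ d') n j' hjd hal hj'.le).2 hj', (hG.sf d' (σ d') n (j' + 1) hjd hal hj').1⟩
    · have h3 := hG.dj d d' (σ d) (σ d') n j' (Ne.symm hdd) hjd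
        (lt_of_lt_of_le hj' (hS.jl d')) hal (hal' d' j' hj')
      rw [hy]
      exact ⟨h3.1, h3.2.1⟩
  obtain ⟨hyR, hyF⟩ := hS.un y hyU
  have hpyR0 : R0.Adj p y := by rw [hyc]; exact hcR _ _ _
  have hpyR : Rr.Adj p y := ((hyR p).2 hpyR0.symm).symm
  have hne12 : C.P true i y ≠ C.P false i y := by rw [hyc]; exact hP _ _ _
  have hPFy : ∀ b, (F0 i).Adj y (C.P b i y) ∧ T.Adj y (C.P b i y) := by
    intro b
    rw [hyc]
    exact hPF b i _ _
  have hnb : ∀ z, (F i).Adj y z ↔ z = C.P true i y ∨ z = C.P false i y := by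
    have h3 : ({C.P true i y, C.P false i y} : Set V) = (F0 i).neighborSet y := by
      apply Set.eq_of_subset_of_ncard_le
      · rintro z (rfl | hz)
        · exact (hPFy true).1
        · rw [Set.mem_singleton_iff.1 hz]
          exact (hPFy false).1
      · rw [Set.ncard_pair hne12]
        exact (hD.lf i).2 y
      · exact Set.toFinite _
    intro z
    rw [hyF, ← SimpleGraph.mem_neighborSet, ← h3]
    rfl
  have hdp : dg (F i) p ≤ 1 := by
    have h3 := hS.dF i p
    have h4 := h2 i p
    have h5 : 1 ≤ (univ.filter fun d => C.cl d = i ∧ C.ps ω d (σ d) (j d) = p).card := by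
      rw [Nat.one_le_iff_ne_zero, ← Nat.pos_iff_ne_zero, Finset.card_pos]
      refine ⟨d, ?_⟩
      rw [mem_filter]
      exact ⟨mem_univ _, hi.symm, by rw [hp, hn]⟩
    omega
  have hd1 : ∀ i x z, Rr.Adj x z → ¬ (F i).Adj x z := fun i => disj_iff.1 (hS.dec.d1 i)
  obtain ⟨u, hu, hlf⟩ := hFIL V (F i) p y (C.P true i y) (C.P false i y) (hS.dec.lf i) hdp
    hpyR.ne (hd1 i _ _ hpyR) hne12 hnb
  obtain ⟨b, hb⟩ : ∃ b, u = C.P b i y := by
    rcases hu with h | h
    · exact ⟨true, h⟩
    · exact ⟨false, h⟩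
  have hyu : (F i).Adj y u := (hnb u).2 hu
  have hyuT : T.Adj y u := by rw [hb]; exact (hPFy b).2
  have hpu : p ≠ u := by
    intro h
    rw [← h] at hyu
    exact hd1 i _ _ hpyR.symm hyu
  -- the new sides
  obtain ⟨σ', hσ'⟩ : ∃ σ' : Δ → ℕ → Bool,
      σ' = Function.update σ d (Function.update (σ d) n b) := ⟨_, rfl⟩
  have hσd : ∀ m, m < n → σ' d m = σ d m := by
    intro m hm
    rw [hσ', Function.update_self, Function.update_of_ne (by omega)]
  have hσn : σ' d n = b := by
    rw [hσ', Function.update_self, Function.update_self]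
  have hσo : ∀ d', d' ≠ d → σ' d' = σ d' := by
    intro d' h
    rw [hσ', Function.update_of_ne h]
  have hps : ∀ m, m ≤ n → C.ps ω d (σ' d) m = C.ps ω d (σ d) m := fun m hm =>
    ps_congr C ω d fun i hi => hσd i (by omega)
  have hyy : ∀ m, m ≤ n → C.yy ω d (σ' d) m = C.yy ω d (σ d) m := fun m hm =>
    yy_congr C ω d fun i hi => hσd i (by omega)
  have hpos : C.ps ω d (σ' d) (n + 1) = u := by
    rw [Chn.ps, hσn]
    have h3 := hyy n le_rfl
    unfold Chn.yy at h3
    rw [h3, hb, hi, hy]
    rfl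
  obtain ⟨jn, hjn⟩ : ∃ jn, jn = Function.update j d (j d + 1) := ⟨_, rfl⟩
  have hjd' : jn d = n + 1 := by
    rw [hjn, Function.update_self, hn]
  have hjo : ∀ d', d' ≠ d → jn d' = j d' := fun d' h => by
    rw [hjn]
    exact Function.update_of_ne h _ _
  have hposo : ∀ d', d' ≠ d → C.ps ω d' (σ' d') (jn d') =
      C.ps ω d' (σ d') (j d') := by
    intro d' h
    rw [hσo d' h, hjo d' h]
  have hposd : C.ps ω d (σ' d) (jn d) = u := by rw [hjd', hpos]
  refine ⟨Function.update F i (newF (F i) p y u), newR Rr p y u, σ', ?_⟩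
  rw [← hjn]
  refine ⟨?_, ?_, ?_, ?_, ?_, ?_, ?_⟩
  · exact dec_step hS.dec hpyR hyu hlf
  · intro x z h
    rw [newR_adj _ _ hyu.ne] at h
    rcases h with h | h
    · exact hS.le h.1
    · exact (Ed_adj h).2 hyuT
  · intro d'
    by_cases h : d' = d
    · subst h
      rw [hjd']
      exact hjd
    · rw [hjo d' h]
      exact hS.jl d'
  · intro d' j' h1 h3
    by_cases h : d' = d
    · subst h
      rw [hjd'] at h3
      rw [hps j' (by omega)]
      exact hal j' h1 (by omega)
    · rw [hjo d' h] at h3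
      rw [hσo d' h]
      exact hS.al d' j' h1 h3
  · intro i' x
    have h3 := hS.dF i' x
    have h4 := sum_change
      (fun d' => if C.cl d' = i' ∧ C.ps ω d' (σ' d') (jn d') = x
        then 1 else 0)
      (fun d' => if C.cl d' = i' ∧ C.ps ω d' (σ d') (j d') = x then 1 else 0) d (by
        intro d' h
        rw [hposo d' h])
    rw [← Finset.card_filter, ← Finset.card_filter, hposd, ← hi] at h4
    rw [← hn, ← hp] at h4
    by_cases hii : i' = i
    · subst hii
      rw [Function.update_self]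
      have h5 := dg_newF hpyR.ne (hd1 i' _ _ hpyR) hyu x
      have e1 : (if i' = i' ∧ p = x then 1 else 0 : ℕ) = if x = p then 1 else 0 := by
        by_cases h : x = p
        · rw [if_pos ⟨rfl, h.symm⟩, if_pos h]
        · rw [if_neg (fun h' => h h'.2.symm), if_neg h]
      have e2 : (if i' = i' ∧ u = x then 1 else 0 : ℕ) = if x = u then 1 else 0 := by
        by_cases h : x = u
        · rw [if_pos ⟨rfl, h.symm⟩, if_pos h]
        · rw [if_neg (fun h' => h h'.2.symm), if_neg h]
      rw [e1, e2] at h4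
      omega
    · rw [Function.update_of_ne hii]
      rw [if_neg (fun h' => hii h'.1.symm), if_neg (fun h' => hii h'.1.symm)] at h4
      omega
  · intro x
    have h3 := hS.dR x
    have h4 := sum_change
      (fun d' => if C.ps ω d' (σ' d') (jn d') = x then 1 else 0)
      (fun d' => if C.ps ω d' (σ d') (j d') = x then 1 else 0) d (by
        intro d' h
        rw [hposo d' h])
    rw [← Finset.card_filter, ← Finset.card_filter, hposd] at h4
    rw [← hn, ← hp] at h4
    have hyuR : ¬ Rr.Adj y u := fun h => hd1 i _ _ h hyu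
    have h5 := dg_newR hyu.ne hyuR hpyR x
    have e1 : (if p = x then 1 else 0 : ℕ) = if x = p then 1 else 0 := by
      by_cases h : x = p
      · rw [if_pos h.symm, if_pos h]
      · rw [if_neg (fun h' => h h'.symm), if_neg h]
    have e2 : (if u = x then 1 else 0 : ℕ) = if x = u then 1 else 0 := by
      by_cases h : x = u
      · rw [if_pos h.symm, if_pos h]
      · rw [if_neg (fun h' => h h'.symm), if_neg h]
    rw [e1, e2] at h4
    omega
  · intro v hv
    have hvd := hv d
    rw [hjd'] at hvd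
    have hvy : v ≠ y := by
      have h3 := (hvd.2 n (by omega)).1
      rw [hyy n le_rfl, ← hy] at h3
      exact h3
    have hvu : v ≠ u := by
      have h3 := (hvd.2 n (by omega)).2
      rw [hpos] at h3
      exact h3
    have hvp : v ≠ p := by
      rcases Nat.eq_zero_or_pos n with h0 | h0
      · rw [hp, h0]
        exact hvd.1
      · have h3 := (hvd.2 (n - 1) (by omega)).2
        have e : n - 1 + 1 = n := by omega
        rw [e, hps n le_rfl, ← hp] at h3
        exact h3
    have hold : Unt C ω σ j v := by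
      intro d'
      refine ⟨(hv d').1, ?_⟩
      intro j' hj'
      by_cases h : d' = d
      · subst h
        rw [← hn] at hj'
        have h3 := hvd.2 j' (by omega)
        rw [hyy j' (by omega), hps (j' + 1) (by omega)] at h3
        exact h3
      · have h3 := (hv d').2 j' (by rw [hjo d' h]; exact hj')
        rw [hσo d' h] at h3
        exact h3
    have hE1 : ∀ z, ¬ Ed p y v z := by
      rintro z (⟨h, _⟩ | ⟨h, _⟩)
      · exact hvp h
      · exact hvy h
    have hE2 : ∀ z, ¬ Ed y u v z := by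
      rintro z (⟨h, _⟩ | ⟨h, _⟩)
      · exact hvy h
      · exact hvu h
    obtain ⟨h3, h4⟩ := hS.un v hold
    refine ⟨?_, ?_⟩
    · intro z
      rw [newR_adj _ _ hyu.ne, ← h3]
      constructor
      · rintro (h | h)
        · exact h.1
        · exact absurd h (hE2 z)
      · exact fun h => Or.inl ⟨h, hE1 z⟩
    · intro i' z
      rw [← h4]
      by_cases hii : i' = i
      · subst hii
        rw [Function.update_self, newF_adj _ _ hpyR.ne]
        constructor
        · rintro ⟨h | h, _⟩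
          · exact h
          · exact absurd h (hE1 z)
        · exact fun h => ⟨Or.inl h, hE2 z⟩
      · rw [Function.update_of_ne hii]

end chn

/-- SEQ: the relocations one after the other. -/
theorem seq (hFIL : FILStmt) : SEQStmt := by
  intro V I Δ _ _ _ t l ρ C N T R R0 F0 D2 ω hl hG hD h2 hcR hcst hP hPF hRT
  -- the result from a state
  have main : ∀ (n : ℕ) (F : I → SimpleGraph V) (Rr : SimpleGraph V) (σ : Δ → ℕ → Bool)
      (j : Δ → ℕ), ∑ d, (l - j d) = n → Stt C ω T R R0 F0 F Rr σ j →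
      ∃ (F : I → SimpleGraph V) (R1 : SimpleGraph V) (e : Δ → V), Dec R R1 F ∧ R1 ≤ T ∧
        (∀ x, dg R1 x + (univ.filter fun d => C.st d = x).card =
          dg R0 x + (univ.filter fun d => e d = x).card) ∧
        ∀ d, ∃ σ j, j < l ∧ C.al ω d σ j ∧ e d = C.ps ω d σ (j + 1) ∧
          (e d ∉ C.X ∨ j + 1 = l) := by
    intro n
    induction n using Nat.strong_induction_on with
    | _ n ih =>
      intro F Rr σ j hn hS
      by_cases hfin : ∀ d, 1 ≤ j d ∧ (C.ps ω d (σ d) (j d) ∉ C.X ∨ j d = l)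
      · refine ⟨F, Rr, fun d => C.ps ω d (σ d) (j d), hS.dec, hS.le, hS.dR, ?_⟩
        intro d
        obtain ⟨h1, h3⟩ := hfin d
        have h4 := hS.jl d
        have e : j d - 1 + 1 = j d := by omega
        refine ⟨σ d, j d - 1, by omega, ?_, by rw [e], by rw [e]; exact h3⟩
        intro j' h5 h6
        exact hS.al d j' h5 (by omega)
      · push Not at hfin
        obtain ⟨d, hd⟩ := hfin
        have h4 := hS.jl d
        have hjd : j d < l := by
          rcases Nat.eq_zero_or_pos (j d) with h | h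
          · omega
          · have := (hd h).2
            omega
        have hal : C.al ω d (σ d) (j d) := by
          intro j' h5 h6
          rcases Nat.lt_or_ge j' (j d) with h7 | h7
          · exact hS.al d j' h5 h7
          · have h8 : j' = j d := by omega
            rw [h8]
            exact (hd (by omega)).1
        obtain ⟨F', Rr', σ', hS'⟩ := step hFIL hG hD h2 hcR hcst hP hPF hS d hjd hal
        refine ih (∑ d', (l - Function.update j d (j d + 1) d')) ?_ F' Rr' σ' _ rfl hS'
        have h5 := sum_change (fun d' => l - Function.update j d (j d + 1) d')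
          (fun d' => l - j d') d (by
            intro d' h
            rw [Function.update_of_ne h])
        simp only [Function.update_self] at h5
        rw [hn] at h5
        omega
  refine main _ F0 R0 (fun _ _ => true) (fun _ => 0) rfl ⟨hD, hRT, fun _ => Nat.zero_le _, ?_,
    fun i x => rfl, fun x => rfl, fun v _ => ⟨fun z => Iff.rfl, fun i z => Iff.rfl⟩⟩
  intro d j' h1 h3
  omega

end Pool.Agent.C4N.H76
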